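import Mathlib

set_option autoImplicit false

/-!
# Job KER (project SI of helper20): the field of a character of `Gal(K̄/E')`, general part
-/

namespace Pool.Agent.Q214.SI

open IntermediateField

theorem conj_mem {G X : Type} [Group G] [Group X] (S : Subgroup G) (ψ : S →* X) (g : S) {h : G}
    (hh : h ∈ ψ.ker.map S.subtype) : (g : G)⁻¹ * h * g ∈ ψ.ker.map S.subtype := by
  obtain ⟨k, hk, rfl⟩ := Subgroup.mem_map.1 hh
  refine Subgroup.mem_map.2 ⟨g⁻¹ * k * g, ?_, rfl⟩
  rw [MonoidHom.mem_ker] at hk ⊢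
  rw [map_mul, map_mul, hk, mul_one, map_inv, inv_mul_cancel]

theorem mem_kmap {G X : Type} [Group G] [Group X] (S : Subgroup G) (ψ : S →* X) (g : S) :
    (g : G) ∈ ψ.ker.map S.subtype ↔ ψ g = 1 := by
  rw [Subgroup.mem_map]
  constructor
  · rintro ⟨x, hx, hxg⟩
    have : x = g := Subtype.ext hxg
    rw [← this]
    exact MonoidHom.mem_ker.1 hx
  · intro h
    exact ⟨g, MonoidHom.mem_ker.2 h, rfl⟩

section
variable {K : Type} [Field K] [CharZero K]

omit [CharZero K] in
theorem conj_aux (γ h : Gal(AlgebraicClosure K/K)) (x : AlgebraicClosure K) (h2 : (γ⁻¹ * h * γ) x = x) :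
    h (γ x) = γ x := by
  have e : h * γ = γ * (γ⁻¹ * h * γ) := by group
  calc h (γ x) = (h * γ) x := rfl
    _ = (γ * (γ⁻¹ * h * γ)) x := congrArg (fun t : Gal(AlgebraicClosure K/K) => t x) e
    _ = γ ((γ⁻¹ * h * γ) x) := rfl
    _ = γ x := congrArg (fun t => γ t) h2

/-- the subgroup `ker ψ` of the absolute Galois group is the group of a finite extension -/
theorem exists_field (E' E₀ : IntermediateField K (AlgebraicClosure K)) [FiniteDimensional K E'] [FiniteDimensional K E₀]
    {X : Type} [Group X] (ψ : E'.fixingSubgroup →* X)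
    (h0 : ∀ g : E'.fixingSubgroup, (g : Gal(AlgebraicClosure K/K)) ∈ E₀.fixingSubgroup → ψ g = 1) :
    ∃ M' : IntermediateField K (AlgebraicClosure K), FiniteDimensional K M' ∧ E' ≤ M' ∧
      (∀ g : E'.fixingSubgroup, ψ g = 1 ↔ (g : Gal(AlgebraicClosure K/K)) ∈ M'.fixingSubgroup) ∧
      ∀ g : E'.fixingSubgroup, ∀ x ∈ M', (g : Gal(AlgebraicClosure K/K)) x ∈ M' := by
  have hG : IsGalois K (AlgebraicClosure K) := inferInstance
  obtain ⟨H, hH⟩ : ∃ H : Subgroup Gal(AlgebraicClosure K/K), H = ψ.ker.map E'.fixingSubgroup.subtype := ⟨_, rfl⟩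
  have hmem : ∀ g : E'.fixingSubgroup, (g : Gal(AlgebraicClosure K/K)) ∈ H ↔ ψ g = 1 := by
    rw [hH]
    exact mem_kmap _ ψ
  have hle : (E' ⊔ E₀).fixingSubgroup ≤ H := by
    intro g hg
    have h1 : g ∈ E'.fixingSubgroup := fixingSubgroup_antitone le_sup_left hg
    have h2 : g ∈ E₀.fixingSubgroup := fixingSubgroup_antitone le_sup_right hg
    exact (hmem ⟨g, h1⟩).2 (h0 ⟨g, h1⟩ h2)
  have hfin : FiniteDimensional K (E' ⊔ E₀ : IntermediateField K (AlgebraicClosure K)) := inferInstance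
  have hopen : IsOpen (H : Set Gal(AlgebraicClosure K/K)) :=
    Subgroup.isOpen_mono hle (fixingSubgroup_isOpen _)
  have hcl : IsClosed (H : Set Gal(AlgebraicClosure K/K)) := Subgroup.isClosed_of_isOpen H hopen
  have hfix : (fixedField H).fixingSubgroup = H :=
    InfiniteGalois.fixingSubgroup_fixedField (⟨H, hcl⟩ : ClosedSubgroup Gal(AlgebraicClosure K/K))
  have hHG : H ≤ E'.fixingSubgroup := by
    rw [hH]
    exact Subgroup.map_subtype_le _
  have hEM : E' ≤ fixedField H := by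
    rw [IntermediateField.le_iff_le]
    exact hHG
  have hM : fixedField H ≤ E' ⊔ E₀ := by
    have h1 : fixedField H ≤ fixedField (E' ⊔ E₀).fixingSubgroup := fixedField_antitone hle
    rwa [InfiniteGalois.fixedField_fixingSubgroup] at h1
  refine ⟨fixedField H, FiniteDimensional.of_injective (inclusion hM).toLinearMap (inclusion hM).injective, hEM,
    fun g => by rw [hfix, hmem], fun g x hx => ?_⟩
  rw [mem_fixedField_iff] at hx ⊢
  intro h hh
  have h1 : (g : Gal(AlgebraicClosure K/K))⁻¹ * h * g ∈ H := by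
    rw [hH] at hh ⊢
    exact conj_mem _ ψ g hh
  exact conj_aux _ h x (hx _ h1)

end

end Pool.Agent.Q214.SI
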