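import Pool.Agent.Q20.SI.Stm5
import Pool.Agent.Q214.SI.Kerf0

set_option autoImplicit false

/-!
# Job KER (project SI of helper20): the field of a character of `Gal(K̄/E')`
-/

namespace Pool.Agent.Q214.SI

open NumberField IntermediateField

section
variable {K : Type} [Field K] [CharZero K]

/-- the field of a character, as an extension of `E'` -/
theorem ext_field (E' E₀ : IntermediateField K (AlgebraicClosure K)) [FiniteDimensional K E'] [FiniteDimensional K E₀]
    {X : Type} [Group X] (ψ : E'.fixingSubgroup →* X)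
    (h0 : ∀ g : E'.fixingSubgroup, (g : Gal(AlgebraicClosure K/K)) ∈ E₀.fixingSubgroup → ψ g = 1) :
    ∃ S : IntermediateField E' (AlgebraicClosure K), FiniteDimensional K S ∧ Normal E' S ∧
      ∀ g : E'.fixingSubgroup, ψ g = 1 ↔ ∀ x ∈ S, (g : Gal(AlgebraicClosure K/K)) x = x := by
  obtain ⟨M', h1, h2, h3, h4⟩ := exists_field E' E₀ ψ h0
  refine ⟨extendScalars h2, h1, ?_, fun g => ?_⟩
  · have hN : Normal E' (AlgebraicClosure K) := inferInstance
    rw [normal_iff_forall_map_le']
    intro σ x hx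
    obtain ⟨y, hy, rfl⟩ := hx
    have hg : (AlgEquiv.restrictScalars K σ) ∈ E'.fixingSubgroup := by
      rw [IntermediateField.mem_fixingSubgroup_iff]
      intro z hz
      exact σ.commutes ⟨z, hz⟩
    exact h4 ⟨_, hg⟩ y hy
  · rw [h3, IntermediateField.mem_fixingSubgroup_iff]
    rfl

end

theorem ker : Pool.Agent.Q20.SI.S_KER := by
  intro K _ _ E' hE' ψ hψ
  obtain ⟨E₀, hE₀, h0⟩ := hψ
  have i1 : FiniteDimensional K E' := hE'
  have i2 : FiniteDimensional K E₀ := hE₀
  obtain ⟨S, hS1, hS2, hS3⟩ := ext_field E' E₀ ψ h0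
  have i3 : NumberField E' := NumberField.of_module_finite K E'
  have i4 : NumberField S := NumberField.of_module_finite K S
  have i5 : IsGalois E' S := { to_isSeparable := inferInstance, to_normal := hS2 }
  have i6 : Normal E' (AlgebraicClosure K) := inferInstance
  obtain ⟨r, hr⟩ : ∃ r : E'.fixingSubgroup →* (S ≃ₐ[E'] S),
      r = (AlgEquiv.restrictNormalHom S).comp (fixingSubgroupEquiv E').toMonoidHom := ⟨_, rfl⟩
  have hr1 : Function.Surjective r := by
    rw [hr]
    exact (AlgEquiv.restrictNormalHom_surjective (AlgebraicClosure K)).comp (fixingSubgroupEquiv E').surjective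
  have hr2 : ∀ (g : E'.fixingSubgroup) (x : S), ((r g x : S) : AlgebraicClosure K) =
      (g : Gal(AlgebraicClosure K/K)) x := by
    intro g x
    rw [hr]
    exact AlgEquiv.restrictNormal_commutes (fixingSubgroupEquiv E' g) S x
  have hk : r.ker ≤ MonoidHom.ker (G := E'.fixingSubgroup) (M := ℂˣ) ψ := by
    intro g hg
    rw [MonoidHom.mem_ker] at hg
    refine MonoidHom.mem_ker.2 ((hS3 g).2 fun x hx => ?_)
    have h1 := hr2 g ⟨x, hx⟩
    rw [hg] at h1
    exact h1.symm
  let χ : (S ≃ₐ[E'] S) →* ℂˣ := MonoidHom.liftOfSurjective r hr1 ⟨ψ, hk⟩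
  have hχ : ∀ g : E'.fixingSubgroup, χ (r g) = (show E'.fixingSubgroup →* ℂˣ from ψ) g := fun g =>
    MonoidHom.liftOfRightInverse_comp_apply r _ _ ⟨ψ, hk⟩ g
  refine ⟨E', S, inferInstance, i3, inferInstance, i4, inferInstance, inferInstance, inferInstance, inferInstance, i5,
    S.val.restrictScalars K, χ, fun z => ?_, ?_, ?_, fun y => ?_⟩
  · constructor
    · intro hz
      exact ⟨⟨z, hz⟩, rfl⟩
    · rintro ⟨x, rfl⟩
      exact x.2
  · intro y g hy
    have h1 : y = r g := by
      ext x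
      rw [hr2]
      exact hy x
    show ((χ y : ℂˣ) : ℂ) = _
    rw [h1]
    exact congrArg (fun t : ℂˣ => (t : ℂ)) (hχ g)
  · rw [injective_iff_map_eq_one]
    intro y hy
    obtain ⟨g, rfl⟩ := hr1 y
    rw [hχ] at hy
    have h1 := (hS3 g).1 hy
    ext x
    rw [hr2]
    exact h1 x x.2
  · obtain ⟨g, rfl⟩ := hr1 y
    exact ⟨g, fun x => hr2 g x⟩

end Pool.Agent.Q214.SI
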